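import Pool.Agent.Q277.EP.Lower
import Pool.Agent.Q277.EP.Example
import Pool.Agent.Q277.EP.Limits

/-!
# The minimal growth exponent for the Euclidean plane

`g_{1,2;2} = φ`, the real root of `t³ = t + 1`: for the Euclidean norm on `ℝ²` (and `m = 1`, `n = 2`)
the infimum of the growth exponents `G(Θ) = liminf M_ν^(1/ν)` of the denominators of the best
approximations is `φ = 1.3247…`, and it is attained.

Lower bound (for every norm on `ℝ²` with the parallelogram law, `M_ν ≥ C φ^ν`). Let `z_0, …, z_6` be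
consecutive best approximations with `x_6 < x_3 + x_4` (a slow step). Parity arguments (among four
vectors of `ℤ³` a nonempty subset has an even sum), with the half-sums estimated by the identity
`Q(t) + Q(t - a) + Q(t - b) + Q(t - c) = Q(a) + Q(b) + Q(c)` for `2 t = a + b + c`, and a lemma
on four vectors of a normed plane give `z_6 = z_4 + z_5 - z_3`, then `z_2 ∈ {z_4 - z_3, z_5 - z_3, z_5 - z_4}`
and `x_1 ≤ x_4 - x_3`. So `V_n = x_n + φ² x_{n+1} + φ x_{n+2}` satisfies `V_{n+1} ≥ φ V_n` or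
`V_{n+1} ≥ φ³ V_{n-2}`.

Upper bound. `Θ = ((φ² + φ - 2)/(3 φ - 2), (φ - 1)/(3 φ - 2))`; in a suitable basis of `ℤ[φ]` the Euclidean
norm of `Θ x - y` differs from the complex absolute value by a factor between constants of ratio
`< 1.13`, and no element of `ℤ[φ]` except `0, ±1` has real absolute value `≤ 1.01` and complex absolute value
`≤ 1.14`; so all large powers of `φ` give best approximations.
-/

set_option autoImplicit false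

open Filter Pool.Agent.TH970.GB

namespace Pool.Agent.Results.MP_7453a1_nt.EuclideanPlane

variable {m n : ℕ}

/-- `Θ x` is not an integer vector for any nonzero integer vector `x`. -/
def Star (Θ : Matrix (Fin n) (Fin m) ℝ) : Prop :=
  ∀ x : Fin m → ℤ, x ≠ 0 → ∀ y : Fin n → ℤ,
    Θ.mulVec (fun i => (x i : ℝ)) ≠ fun j => (y j : ℝ)

/-- The vectors `z 1, z 2, …` are the best approximation vectors of `Θ` (one from each pair `±z`)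
in order of increasing `|x|`. -/
def IsEnumeration (N1 : (Fin m → ℝ) → ℝ) (N2 : (Fin n → ℝ) → ℝ) (Θ : Matrix (Fin n) (Fin m) ℝ)
    (z : ℕ → (Fin m → ℤ) × (Fin n → ℤ)) : Prop :=
  (∀ ν, 1 ≤ ν → IsBest N1 N2 Θ (z ν)) ∧
  (∀ i j, 1 ≤ i → i < j → N1 (cv (z i).1) < N1 (cv (z j).1)) ∧
  (∀ v, IsBest N1 N2 Θ v → ∃ ν, 1 ≤ ν ∧ (v = z ν ∨ v = -z ν))

/-- The number `g`: the infimum of `G(Θ) = liminf M_ν^(1/ν)` over all `Θ` with the property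
`Star`. -/
noncomputable def g (N1 : (Fin m → ℝ) → ℝ) (N2 : (Fin n → ℝ) → ℝ) : EReal :=
  sInf {G : EReal | ∃ Θ : Matrix (Fin n) (Fin m) ℝ, Star Θ ∧
    ∃ z : ℕ → (Fin m → ℤ) × (Fin n → ℤ), IsEnumeration N1 N2 Θ z ∧
      G = liminf (fun ν : ℕ => ((N1 (cv (z ν).1) ^ (1 / (ν : ℝ)) : ℝ) : EReal)) atTop}

/-- The Euclidean norm on the plane. -/
noncomputable def euclid (v : Fin 2 → ℝ) : ℝ := Real.sqrt (v 0 ^ 2 + v 1 ^ 2)

/-- Let `φ` be the real root of `t³ = t + 1`.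
(1) `g = φ` for the Euclidean norm on `ℝ²` (and any norm on `ℝ¹`).
(2) For every norm on `ℝ²` with the parallelogram law and every `Θ`: `M_ν ≥ C φ^ν` with some `C > 0`;
so `g ≥ φ`.
(3) For the Euclidean norm there is a `Θ` with `c φ^ν ≤ M_ν ≤ C φ^ν`. -/
theorem result (φ : ℝ) (hφ : φ ^ 3 = φ + 1) (N1 : (Fin 1 → ℝ) → ℝ) (h1 : IsNorm N1) :
    g N1 euclid = (φ : EReal) ∧
    (∀ N2 : (Fin 2 → ℝ) → ℝ, IsNorm N2 →
      (∀ x y, N2 (x + y) ^ 2 + N2 (x - y) ^ 2 = 2 * (N2 x ^ 2 + N2 y ^ 2)) →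
      (φ : EReal) ≤ g N1 N2 ∧
      ∀ (Θ : Matrix (Fin 2) (Fin 1) ℝ) (z : ℕ → (Fin 1 → ℤ) × (Fin 2 → ℤ)),
        IsEnumeration N1 N2 Θ z → ∃ C : ℝ, 0 < C ∧ ∀ ν, 1 ≤ ν → C * φ ^ ν ≤ N1 (cv (z ν).1)) ∧
    (∃ Θ : Matrix (Fin 2) (Fin 1) ℝ, Star Θ ∧ ∃ z : ℕ → (Fin 1 → ℤ) × (Fin 2 → ℤ),
      IsEnumeration N1 euclid Θ z ∧ ∃ c C : ℝ, 0 < c ∧ ∀ ν, 1 ≤ ν →
        c * φ ^ ν ≤ N1 (cv (z ν).1) ∧ N1 (cv (z ν).1) ≤ C * φ ^ ν) := by
  have hp : 0 < φ := by linarith [Q277.EP.plastic_gt hφ]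
  have hlow : ∀ N2 : (Fin 2 → ℝ) → ℝ, IsNorm N2 →
      (∀ x y, N2 (x + y) ^ 2 + N2 (x - y) ^ 2 = 2 * (N2 x ^ 2 + N2 y ^ 2)) →
      ∀ (Θ : Matrix (Fin 2) (Fin 1) ℝ) (z : ℕ → (Fin 1 → ℤ) × (Fin 2 → ℤ)),
        IsEnumeration N1 N2 Θ z → ∃ C : ℝ, 0 < C ∧ ∀ ν, 1 ≤ ν → C * φ ^ ν ≤ N1 (cv (z ν).1) :=
    fun N2 h2 hpar Θ z hz => Q277.EP.IsEnum.lower h1 h2 hpar hz hφ
  have hg : ∀ N2 : (Fin 2 → ℝ) → ℝ, IsNorm N2 →
      (∀ x y, N2 (x + y) ^ 2 + N2 (x - y) ^ 2 = 2 * (N2 x ^ 2 + N2 y ^ 2)) →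
      (φ : EReal) ≤ g N1 N2 := by
    intro N2 h2 hpar
    apply le_sInf
    rintro G ⟨Θ, -, z, hz, rfl⟩
    obtain ⟨C, hC, h⟩ := hlow N2 h2 hpar Θ z hz
    exact Q277.EP.liminf_ge hC hp h
  have hpar : ∀ x y, euclid (x + y) ^ 2 + euclid (x - y) ^ 2 = 2 * (euclid x ^ 2 + euclid y ^ 2) := by
    intro x y
    unfold euclid
    rw [Real.sq_sqrt (by positivity), Real.sq_sqrt (by positivity), Real.sq_sqrt (by positivity),
      Real.sq_sqrt (by positivity)]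
    simp only [Pi.add_apply, Pi.sub_apply]
    ring
  have hex : ∃ Θ : Matrix (Fin 2) (Fin 1) ℝ, Star Θ ∧ ∃ z : ℕ → (Fin 1 → ℤ) × (Fin 2 → ℤ),
      IsEnumeration N1 euclid Θ z ∧ ∃ c C : ℝ, 0 < c ∧ ∀ ν, 1 ≤ ν →
        c * φ ^ ν ≤ N1 (cv (z ν).1) ∧ N1 (cv (z ν).1) ≤ C * φ ^ ν := by
    obtain ⟨⟨z, hz⟩, C, -, hC⟩ := Q277.EP.example_growth hφ h1
    obtain ⟨c, hc, h⟩ := hlow euclid Q277.EP.euc_norm hpar _ z hz
    exact ⟨Q277.EP.Th φ, Q277.EP.Th_star hφ, z, hz, c, C, hc, fun ν hν => ⟨h ν hν, hC z hz ν hν⟩⟩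
  refine ⟨le_antisymm ?_ (hg euclid Q277.EP.euc_norm hpar),
    fun N2 h2 hpar => ⟨hg N2 h2 hpar, hlow N2 h2 hpar⟩, hex⟩
  obtain ⟨Θ, hΘ, z, hz, c, C, hc, h⟩ := hex
  have hC : 0 < C := by
    have := h 1 le_rfl
    have h3 : 0 < c * φ ^ 1 := by positivity
    by_contra hneg
    push Not at hneg
    have : C * φ ^ 1 ≤ 0 := mul_nonpos_of_nonpos_of_nonneg hneg (by positivity)
    linarith
  calc g N1 euclid ≤ liminf (fun ν : ℕ => ((N1 (cv (z ν).1) ^ (1 / (ν : ℝ)) : ℝ) : EReal)) atTop :=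
        sInf_le ⟨Θ, hΘ, z, hz, rfl⟩
    _ ≤ _ := Q277.EP.liminf_le hC hp (fun ν hν => h1.nonneg _) fun ν hν => (h ν hν).2

end Pool.Agent.Results.MP_7453a1_nt.EuclideanPlane
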